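import Mathlib
import Pool.Agent.W25.UB.Stm

/-! Project UB (helper25), part VG: comparison of the two sieves. -/

set_option autoImplicit false

namespace Pool.Agent.W287.UB

open Finset Filter Topology
open Pool.Agent.W25.UB
open Pool.Agent.H410R2 (SS h0)
open Pool.Agent.W23.PL (VV)

lemma h0_nonneg {p : ℕ} (hp : p.Prime) : 0 ≤ h0 p := by
  have h2 : (2 : ℝ) ≤ p := by exact_mod_cast hp.two_le
  unfold h0
  apply div_nonneg zero_le_one
  linarith

lemma term_nonneg (S : Finset ℕ) (hS : ∀ p ∈ S, p.Prime) (L : ℝ) (a : Finset ℕ)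
    (ha : a ∈ S.powerset) :
    0 ≤ (∏ p ∈ a, h0 p) * (if Real.log (∏ p ∈ a, (p : ℝ)) ≤ 1 * L then (1 : ℝ) else 0) := by
  apply mul_nonneg
  · exact Finset.prod_nonneg (fun p hp => h0_nonneg (hS p (Finset.mem_powerset.1 ha hp)))
  · split_ifs <;> norm_num

lemma prod_pos' (S : Finset ℕ) (hS : ∀ p ∈ S, p.Prime) (a : Finset ℕ) (ha : a ∈ S.powerset) :
    0 < ∏ p ∈ a, (p : ℝ) :=
  Finset.prod_pos (fun p hp => by
    exact_mod_cast (hS p (Finset.mem_powerset.1 ha hp)).pos)

lemma SS_insert (S : Finset ℕ) (hS : ∀ p ∈ S, p.Prime) (q : ℕ) (hq : q.Prime) (hqS : q ∉ S)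
    (L : ℝ) :
    SS (insert q S) h0 1 L (fun _ => 1) ≤ (1 + h0 q) * SS S h0 1 L (fun _ => 1) := by
  have e : ∀ X : ℝ, (1 + h0 q) * X = X + h0 q * X := fun X => by ring
  rw [e]
  unfold SS
  rw [Finset.sum_powerset_insert hqS]
  refine add_le_add le_rfl ?_
  rw [Finset.mul_sum]
  apply Finset.sum_le_sum
  intro a ha
  have hqa : q ∉ a := fun h => hqS (Finset.mem_powerset.1 ha h)
  rw [Finset.prod_insert hqa, Finset.prod_insert hqa, mul_assoc]
  apply mul_le_mul_of_nonneg_left _ (h0_nonneg hq)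
  apply mul_le_mul_of_nonneg_left
  · have h1 : 0 < ∏ p ∈ a, (p : ℝ) := prod_pos' S hS a ha
    have h2 : (1 : ℝ) ≤ q := by exact_mod_cast hq.one_le
    by_cases h : Real.log ((q : ℝ) * ∏ p ∈ a, (p : ℝ)) ≤ 1 * L
    · have h3 : Real.log (∏ p ∈ a, (p : ℝ)) ≤ 1 * L := by
        refine le_trans (Real.log_le_log h1 ?_) h
        nlinarith
      simp only [if_pos h, if_pos h3, le_refl]
    · rw [if_neg h]
      split_ifs <;> norm_num
  · exact Finset.prod_nonneg (fun p hp => h0_nonneg (hS p (Finset.mem_powerset.1 ha hp)))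

lemma SS_union (P : Finset ℕ) (hP : ∀ p ∈ P, p.Prime) (L : ℝ) (P' : Finset ℕ)
    (hP' : ∀ p ∈ P', p.Prime) (hd : Disjoint P P') :
    SS (P ∪ P') h0 1 L (fun _ => 1) ≤
      (∏ p ∈ P', (1 + h0 p)) * SS P h0 1 L (fun _ => 1) := by
  induction P' using Finset.induction_on with
  | empty => simp
  | @insert q T hqT ih =>
    have hT : ∀ p ∈ T, p.Prime := fun p hp => hP' p (Finset.mem_insert_of_mem hp)
    have hq : q.Prime := hP' q (Finset.mem_insert_self q T)
    have hdT : Disjoint P T := hd.mono_right (Finset.subset_insert q T)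
    have hqP : q ∉ P := fun h =>
      (Finset.disjoint_left.1 hd h) (Finset.mem_insert_self q T)
    rw [Finset.union_insert, Finset.prod_insert hqT, mul_assoc]
    have hU : ∀ p ∈ P ∪ T, p.Prime := by
      intro p hp
      rcases Finset.mem_union.1 hp with h | h
      · exact hP p h
      · exact hT p h
    have hqU : q ∉ P ∪ T := by
      rw [Finset.mem_union]
      rintro (h | h)
      · exact hqP h
      · exact hqT h
    refine (SS_insert (P ∪ T) hU q hq hqU L).trans ?_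
    exact mul_le_mul_of_nonneg_left (ih hT hdT) (by have := h0_nonneg hq; linarith)

lemma prodprimes_squarefree (a : Finset ℕ) (ha : ∀ p ∈ a, p.Prime) :
    Squarefree (∏ p ∈ a, p) ∧ (∏ p ∈ a, p).primeFactors = a := by
  refine ⟨?_, Nat.primeFactors_prod ha⟩
  induction a using Finset.induction_on with
  | empty => simp
  | @insert q T hqT ih =>
    have hT : ∀ p ∈ T, p.Prime := fun p hp => ha p (Finset.mem_insert_of_mem hp)
    have hq : q.Prime := ha q (Finset.mem_insert_self q T)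
    rw [Finset.prod_insert hqT]
    have hc : Nat.Coprime q (∏ p ∈ T, p) := by
      apply Nat.Coprime.prod_right
      intro p hp
      rw [Nat.coprime_primes hq (hT p hp)]
      rintro rfl
      exact hqT hp
    rw [Nat.squarefree_mul hc]
    exact ⟨hq.prime.squarefree, ih hT⟩

lemma totient_prod (a : Finset ℕ) (ha : ∀ p ∈ a, p.Prime) :
    ((∏ p ∈ a, p).totient : ℝ) = ∏ p ∈ a, ((p : ℝ) - 1) := by
  induction a using Finset.induction_on with
  | empty => simp
  | @insert q T hqT ih =>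
    have hT : ∀ p ∈ T, p.Prime := fun p hp => ha p (Finset.mem_insert_of_mem hp)
    have hq : q.Prime := ha q (Finset.mem_insert_self q T)
    rw [Finset.prod_insert hqT, Finset.prod_insert hqT]
    have hc : Nat.Coprime q (∏ p ∈ T, p) := by
      apply Nat.Coprime.prod_right
      intro p hp
      rw [Nat.coprime_primes hq (hT p hp)]
      rintro rfl
      exact hqT hp
    rw [Nat.totient_mul hc, Nat.totient_prime hq, Nat.cast_mul, ih hT,
      Nat.cast_sub hq.one_le, Nat.cast_one]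

lemma mem_sq' (P : Finset ℕ) (z d : ℕ) : d ∈ Pool.Agent.W25.UB.sq P z ↔
    (1 ≤ d ∧ d ≤ z) ∧ Squarefree d ∧ ∀ p : ℕ, p.Prime → p ∣ d → p ∈ P := by
  unfold Pool.Agent.W25.UB.sq
  simp only [Finset.mem_filter, Finset.mem_Icc]

lemma SS_eq_GG (P : Finset ℕ) (hP : ∀ p ∈ P, p.Prime) (z : ℕ) (hz : 1 ≤ z) :
    SS P h0 1 (Real.log z) (fun _ => 1) = GG P z := by
  have hcond : ∀ a ∈ P.powerset, (Real.log (∏ p ∈ a, (p : ℝ)) ≤ 1 * Real.log z ↔
      ∏ p ∈ a, p ≤ z) := by
    intro a ha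
    have h1 : 0 < ∏ p ∈ a, (p : ℝ) := prod_pos' P hP a ha
    have h2 : (0 : ℝ) < z := by exact_mod_cast hz
    rw [one_mul, Real.log_le_log_iff h1 h2, ← Nat.cast_prod, Nat.cast_le]
  have h1 : SS P h0 1 (Real.log z) (fun _ => 1) =
      ∑ a ∈ P.powerset.filter (fun a => ∏ p ∈ a, p ≤ z), ∏ p ∈ a, h0 p := by
    unfold SS
    rw [Finset.sum_filter]
    apply Finset.sum_congr rfl
    intro a ha
    by_cases h : ∏ p ∈ a, p ≤ z
    · rw [if_pos ((hcond a ha).2 h), if_pos h, mul_one]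
    · rw [if_neg (fun h' => h ((hcond a ha).1 h')), if_neg h, mul_zero]
  rw [h1]
  unfold GG
  refine Finset.sum_nbij' (fun a => ∏ p ∈ a, p) (fun d => d.primeFactors) ?_ ?_ ?_ ?_ ?_
  · intro a ha
    rw [Finset.mem_filter, Finset.mem_powerset] at ha
    have hap : ∀ p ∈ a, p.Prime := fun p hp => hP p (ha.1 hp)
    obtain ⟨hsq, hpf⟩ := prodprimes_squarefree a hap
    rw [mem_sq']
    refine ⟨⟨Nat.pos_of_ne_zero hsq.ne_zero, ha.2⟩, hsq, ?_⟩
    intro p hp hpd
    apply ha.1
    rw [← hpf]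
    exact Nat.mem_primeFactors.2 ⟨hp, hpd, hsq.ne_zero⟩
  · intro d hd
    rw [mem_sq'] at hd
    obtain ⟨⟨hd1, hdz⟩, hsq, hdp⟩ := hd
    rw [Finset.mem_filter, Finset.mem_powerset]
    refine ⟨?_, ?_⟩
    · intro p hp
      exact hdp p (Nat.prime_of_mem_primeFactors hp) (Nat.dvd_of_mem_primeFactors hp)
    · show ∏ p ∈ d.primeFactors, p ≤ z
      rw [Nat.prod_primeFactors_of_squarefree hsq]
      exact hdz
  · intro a ha
    rw [Finset.mem_filter, Finset.mem_powerset] at ha
    have hap : ∀ p ∈ a, p.Prime := fun p hp => hP p (ha.1 hp)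
    exact (prodprimes_squarefree a hap).2
  · intro d hd
    rw [mem_sq'] at hd
    exact Nat.prod_primeFactors_of_squarefree hd.2.1
  · intro a ha
    rw [Finset.mem_filter, Finset.mem_powerset] at ha
    have hap : ∀ p ∈ a, p.Prime := fun p hp => hP p (ha.1 hp)
    show ∏ p ∈ a, h0 p = 1 / ((∏ p ∈ a, p).totient : ℝ)
    rw [totient_prod a hap]
    unfold h0
    rw [Finset.prod_div_distrib, Finset.prod_const_one]

lemma SS_pos (S : Finset ℕ) (hS : ∀ p ∈ S, p.Prime) (z : ℕ) (hz : 1 ≤ z) :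
    0 < SS S h0 1 (Real.log z) (fun _ => 1) := by
  have hl : 0 ≤ Real.log z := Real.log_nonneg (by exact_mod_cast hz)
  unfold SS
  have h := Finset.single_le_sum
    (f := fun a : Finset ℕ => (∏ p ∈ a, h0 p) *
      (if Real.log (∏ p ∈ a, (p : ℝ)) ≤ 1 * Real.log z then (1 : ℝ) else 0))
    (fun a ha => term_nonneg S hS (Real.log z) a ha) (Finset.empty_mem_powerset S)
  refine lt_of_lt_of_le ?_ h
  simp [hl]

theorem main : St_VG := by
  intro P P' z hz hPP hd
  have hP : ∀ p ∈ P, p.Prime := fun p hp => hPP p (Finset.mem_union_left _ hp)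
  have hP' : ∀ p ∈ P', p.Prime := fun p hp => hPP p (Finset.mem_union_right _ hp)
  have hpos := SS_pos (P ∪ P') hPP z hz
  refine ⟨?_, hpos⟩
  have hu := SS_union P hP (Real.log z) P' hP' hd
  have hposP := SS_pos P hP z hz
  rw [SS_eq_GG P hP z hz] at hu hposP
  have hV : (∏ p ∈ P', (1 + h0 p)) * VV P' = 1 := by
    unfold VV
    rw [← Finset.prod_mul_distrib]
    apply Finset.prod_eq_one
    intro p hp
    have h2 : (2 : ℝ) ≤ p := by exact_mod_cast (hP' p hp).two_le
    have h3 : (p : ℝ) - 1 ≠ 0 := by linarith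
    have h4 : (p : ℝ) ≠ 0 := by linarith
    unfold h0
    field_simp
    ring
  have hVpos : 0 < VV P' := by
    unfold VV
    apply Finset.prod_pos
    intro p hp
    have h2 : (2 : ℝ) ≤ p := by exact_mod_cast (hP' p hp).two_le
    have h3 : 1 / (p : ℝ) < 1 := by
      rw [div_lt_one (by linarith)]
      linarith
    linarith
  rw [div_le_div_iff₀ hposP hpos, one_mul]
  calc VV P' * SS (P ∪ P') h0 1 (Real.log z) (fun _ => 1)
      ≤ VV P' * ((∏ p ∈ P', (1 + h0 p)) * GG P z) := mul_le_mul_of_nonneg_left hu hVpos.le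
    _ = ((∏ p ∈ P', (1 + h0 p)) * VV P') * GG P z := by ring
    _ = GG P z := by rw [hV, one_mul]

end Pool.Agent.W287.UB
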